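import Pool.Agent.H19.KL.Stmts

/-!
# Project KL: exponential integrability from the Poincare inequality
-/

set_option autoImplicit false

open MeasureTheory Set Filter Topology
open scoped ContDiff

namespace Pool.Agent.H19.KL

open Pool.Agent.H84 Pool.Agent.H84.Sym Pool.Agent.H84.Sym.P2x Pool.Agent.H84.Sym.C29

section

variable {E : Type} [NormedAddCommGroup E] [InnerProductSpace ℝ E]
    [FiniteDimensional ℝ E] [MeasurableSpace E] [BorelSpace E]

omit [FiniteDimensional ℝ E] [MeasurableSpace E] [BorelSpace E] in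
private theorem exp_gr {ψ : E → ℝ} {ℓ : ℝ} (hψ : ContDiff ℝ 1 ψ) (hℓ : 0 ≤ ℓ)
    (hd : ∀ x, ‖fderiv ℝ ψ x‖ ≤ ℓ) (c : ℝ) : GC (fun x => Real.exp (c * ψ x)) := by
  have hlip : ∀ x, |ψ x - ψ 0| ≤ ℓ * ‖x‖ := by
    intro x
    have h1 := (convex_univ (𝕜 := ℝ) (E := E)).norm_image_sub_le_of_norm_fderiv_le
      (f := ψ) (C := ℓ) (𝕜 := ℝ) (fun y _ => (hψ.differentiable (by norm_num)).differentiableAt)
      (fun y _ => hd y) (Set.mem_univ 0) (Set.mem_univ x)
    rw [Real.norm_eq_abs, sub_zero] at h1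
    exact h1
  refine ⟨Real.continuous_exp.comp (continuous_const.mul hψ.continuous),
    Real.exp (|c| * |ψ 0|), |c| * ℓ, fun x => ?_⟩
  rw [Real.abs_exp, ← Real.exp_add]
  apply Real.exp_le_exp.2
  have h1 := hlip x
  have h2 : c * ψ x ≤ |c| * |ψ x| := (le_abs_self _).trans (abs_mul _ _).le
  have h3 : |ψ x| ≤ |ψ 0| + ℓ * ‖x‖ := by
    have h4 : ψ x = ψ 0 + (ψ x - ψ 0) := by ring
    rw [h4]
    exact (abs_add_le _ _).trans (by linarith)
  nlinarith [abs_nonneg c, mul_le_mul_of_nonneg_left h3 (abs_nonneg c)]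

private theorem exp_half (h1 : EXTStmt E) {U : E → ℝ} {t C L : ℝ} (hU : Pot U t C)
    (hP : IsProbabilityMeasure (mu U)) (hL : 0 < L) (hG : GPC (mu U) L) {ψ : E → ℝ} {ℓ : ℝ}
    (hψ : ContDiff ℝ 1 ψ) (hℓ : 0 ≤ ℓ) (hd : ∀ x, ‖fderiv ℝ ψ x‖ ≤ ℓ) (hLl : L * ℓ ^ 2 ≤ 1)
    (l : ℝ) : (∫ x, Real.exp (l * ψ x) ∂(mu U)) * (1 - l ^ 2 / 4) ≤
      (∫ x, Real.exp (l / 2 * ψ x) ∂(mu U)) ^ 2 := by
  set f : E → ℝ := fun x => Real.exp (l / 2 * ψ x) with hf
  have hGf : GC f := exp_gr hψ hℓ hd _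
  have hfc : ContDiff ℝ 1 f := (contDiff_const.mul hψ).exp
  have hder : ∀ x, fderiv ℝ f x = (f x * (l / 2)) • fderiv ℝ ψ x := by
    intro x
    have h2 : HasFDerivAt ψ (fderiv ℝ ψ x) x :=
      ((hψ.differentiable (by norm_num)) x).hasFDerivAt
    have h3 := (h2.const_mul (l / 2)).exp
    rw [h3.fderiv, smul_smul]
  have hfpos : ∀ x, 0 ≤ f x := fun x => (Real.exp_pos _).le
  have hnorm : ∀ x, ‖fderiv ℝ f x‖ ≤ f x * (|l| / 2 * ℓ) := by
    intro x
    rw [hder, norm_smul, Real.norm_eq_abs, abs_mul, abs_of_nonneg (hfpos x), abs_div,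
      abs_of_pos (by norm_num : (0:ℝ) < 2), mul_assoc]
    refine mul_le_mul_of_nonneg_left ?_ (hfpos x)
    exact mul_le_mul_of_nonneg_left (hd x) (by positivity)
  have hGn : Gr (fun x => ‖fderiv ℝ f x‖) := by
    refine Gr.of_le (G := fun x => f x * (|l| / 2 * ℓ)) (hGf.mul (GC.const _)).2 fun x => ?_
    rw [abs_of_nonneg (norm_nonneg _)]
    exact (hnorm x).trans (le_abs_self _)
  have h2 := h1 U t C L hU hP hG f hfc hGf.2 hGn
  have hsq : (fun x => f x ^ 2) = fun x => Real.exp (l * ψ x) := by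
    funext x
    rw [hf]
    simp only
    rw [← Real.exp_nat_mul]
    congr 1
    push_cast
    ring
  have hI : Integrable (fun x => f x ^ 2) (mu U) := hGf.sq.integrable hU
  have hcont : Continuous (fun x => ‖fderiv ℝ f x‖ ^ 2) :=
    ((hfc.continuous_fderiv (by norm_num)).norm).pow 2
  have h3 : ∫ x, ‖fderiv ℝ f x‖ ^ 2 ∂(mu U) ≤ ∫ x, (|l| / 2 * ℓ) ^ 2 * f x ^ 2 ∂(mu U) := by
    refine integral_mono ?_ (hI.const_mul _) fun x => ?_
    · exact GC.integrable (F := fun x => ‖fderiv ℝ f x‖ ^ 2)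
        (GC.sq ⟨(hfc.continuous_fderiv (by norm_num)).norm, hGn⟩) hU
    · have h4 := pow_le_pow_left₀ (norm_nonneg _) (hnorm x) 2
      refine h4.trans (le_of_eq ?_)
      ring
  rw [integral_const_mul, mul_pow, div_pow, sq_abs] at h3
  have hH : 0 ≤ ∫ x, f x ^ 2 ∂(mu U) := integral_nonneg fun x => sq_nonneg _
  have h5 : L * ∫ x, ‖fderiv ℝ f x‖ ^ 2 ∂(mu U) ≤ l ^ 2 / 4 * ∫ x, f x ^ 2 ∂(mu U) := by
    refine (mul_le_mul_of_nonneg_left h3 hL.le).trans ?_
    have h6 : L * (l ^ 2 / 2 ^ 2 * ℓ ^ 2 * ∫ x, f x ^ 2 ∂(mu U)) =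
        (L * ℓ ^ 2) * (l ^ 2 / 4 * ∫ x, f x ^ 2 ∂(mu U)) := by ring
    rw [h6]
    have h7 : 0 ≤ l ^ 2 / 4 * ∫ x, f x ^ 2 ∂(mu U) := by positivity
    nlinarith
  rw [← hsq]
  have h8 := h2.trans h5
  linarith

end

theorem exp_thm (E : Type) [NormedAddCommGroup E] [InnerProductSpace ℝ E]
    [FiniteDimensional ℝ E] [MeasurableSpace E] [BorelSpace E] (h1 : EXTStmt E) : EXPStmt E := by
  intro U t C L hU hP hL hG ψ ℓ hψ hℓ hd hLl
  set μ := mu U with hμ
  have hint : ∀ c : ℝ, Integrable (fun x => Real.exp (c * ψ x)) μ := fun c =>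
    (exp_gr hψ hℓ hd c).integrable hU
  have hset : ProbabilityTheory.integrableExpSet ψ μ = Set.univ := by
    ext c
    simp only [Set.mem_univ, iff_true]
    exact hint c
  have h0i : (0 : ℝ) ∈ interior (ProbabilityTheory.integrableExpSet ψ μ) := by
    rw [hset, interior_univ]
    trivial
  set g : ℝ → ℝ := fun l => ProbabilityTheory.cgf ψ μ l + ProbabilityTheory.cgf ψ μ (-l) with hg
  have hpos : ∀ l, 0 < ∫ x, Real.exp (l * ψ x) ∂μ := fun l => by
    have := ProbabilityTheory.mgf_pos (hint l)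
    exact this
  -- one step
  have hstep : ∀ l : ℝ, 0 ≤ l → l ≤ 1 → g l ≤ 2 * g (l / 2) + 2 / 3 * l ^ 2 := by
    intro l hl0 hl1
    have hu : 0 < 1 - l ^ 2 / 4 := by nlinarith
    have key : ∀ a : ℝ, a ^ 2 = l ^ 2 → ProbabilityTheory.cgf ψ μ a + Real.log (1 - l ^ 2 / 4) ≤
        2 * ProbabilityTheory.cgf ψ μ (a / 2) := by
      intro a ha
      have h2 := exp_half h1 hU hP hL hG hψ hℓ hd hLl a
      rw [ha] at h2
      have h3 := Real.log_le_log (mul_pos (hpos a) hu) h2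
      rw [Real.log_mul (hpos a).ne' hu.ne', Real.log_pow] at h3
      exact_mod_cast h3
    have h2 := key l rfl
    have h3 := key (-l) (by ring)
    have h4 : Real.log (1 - l ^ 2 / 4) ≥ -(1 / 3 * l ^ 2) := by
      have h5 := Real.one_sub_inv_le_log_of_pos hu
      refine le_trans ?_ h5
      have h6 : (1 - l ^ 2 / 4)⁻¹ ≤ 1 + 1 / 3 * l ^ 2 := by
        rw [inv_le_comm₀ hu (by positivity)]
        have h7 : (1 + 1 / 3 * l ^ 2)⁻¹ * (1 + 1 / 3 * l ^ 2) = 1 :=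
          inv_mul_cancel₀ (by positivity)
        have h8 : (1 : ℝ) ≤ (1 - l ^ 2 / 4) * (1 + 1 / 3 * l ^ 2) := by
          have : l ^ 2 ≤ 1 := by nlinarith
          nlinarith [sq_nonneg l, mul_nonneg (sq_nonneg l) (sub_nonneg.2 this)]
        have h9 : 0 < 1 + 1 / 3 * l ^ 2 := by positivity
        rw [inv_le_iff_one_le_mul₀ h9]
        exact h8
      linarith
    have h5 : g (l / 2) = ProbabilityTheory.cgf ψ μ (l / 2) +
        ProbabilityTheory.cgf ψ μ (-l / 2) := by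
      rw [hg]
      simp only
      rw [neg_div]
    rw [h5]
    have h6 : g l = ProbabilityTheory.cgf ψ μ l + ProbabilityTheory.cgf ψ μ (-l) := rfl
    rw [h6]
    linarith
  -- iteration
  have hiter : ∀ n : ℕ, g 1 ≤ 2 ^ n * g ((1 / 2) ^ n) + 4 / 3 * (1 - (1 / 2) ^ n) := by
    intro n
    induction n with
    | zero => simp
    | succ n ih =>
      have h2 := hstep ((1 / 2) ^ n) (by positivity) (pow_le_one₀ (by norm_num) (by norm_num))
      have h3 : ((1 : ℝ) / 2) ^ n / 2 = (1 / 2) ^ (n + 1) := by rw [pow_succ]; ring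
      rw [h3] at h2
      have h4 := mul_le_mul_of_nonneg_left h2 (show (0 : ℝ) ≤ 2 ^ n by positivity)
      have h5 : (2 : ℝ) ^ n * (2 * g ((1 / 2) ^ (n + 1)) + 2 / 3 * ((1 / 2) ^ n) ^ 2) =
          2 ^ (n + 1) * g ((1 / 2) ^ (n + 1)) + 2 / 3 * (1 / 2) ^ n := by
        have h6 : (2 : ℝ) ^ n * (1 / 2) ^ n = 1 := by
          rw [← mul_pow]; norm_num
        have h7 : (2 : ℝ) ^ n * (2 / 3 * ((1 / 2) ^ n) ^ 2) =
            2 / 3 * ((2 ^ n * (1 / 2) ^ n) * (1 / 2) ^ n) := by ring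
        rw [mul_add, h7, h6]
        ring
      rw [h5] at h4
      have h8 : ((1 : ℝ) / 2) ^ (n + 1) = (1 / 2) ^ n / 2 := h3.symm
      have h9 : 4 / 3 * (1 - ((1 : ℝ) / 2) ^ (n + 1)) =
          4 / 3 * (1 - (1 / 2) ^ n) + 2 / 3 * (1 / 2) ^ n := by rw [h8]; ring
      rw [h9]
      linarith
  -- the limit
  have hcd : DifferentiableAt ℝ (ProbabilityTheory.cgf ψ μ) 0 := by
    have h2 := (ProbabilityTheory.hasDerivAt_mgf h0i).differentiableAt
    refine h2.log ?_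
    exact (hpos 0).ne'
  have hgd : HasDerivAt g 0 0 := by
    have h2 := hcd.hasDerivAt
    have h3 : HasDerivAt (fun l : ℝ => ProbabilityTheory.cgf ψ μ (-l))
        (deriv (ProbabilityTheory.cgf ψ μ) 0 * (-1)) 0 := by
      have h4 : HasDerivAt (ProbabilityTheory.cgf ψ μ) (deriv (ProbabilityTheory.cgf ψ μ) 0)
          (-(0 : ℝ)) := by rw [neg_zero]; exact h2
      exact h4.comp (0 : ℝ) (hasDerivAt_neg (0 : ℝ))
    have h5 := h2.add h3
    have h6 : deriv (ProbabilityTheory.cgf ψ μ) 0 + deriv (ProbabilityTheory.cgf ψ μ) 0 * (-1) =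
        0 := by ring
    rw [h6] at h5
    exact h5
  have hg0 : g 0 = 0 := by
    rw [hg]
    simp
  have hlim : Tendsto (fun n : ℕ => (2 : ℝ) ^ n * g ((1 / 2) ^ n)) atTop (𝓝 0) := by
    have h2 := hasDerivAt_iff_tendsto_slope_zero.1 hgd
    have h3 : Tendsto (fun n : ℕ => ((1 : ℝ) / 2) ^ n) atTop (𝓝[≠] 0) := by
      rw [tendsto_nhdsWithin_iff]
      refine ⟨tendsto_pow_atTop_nhds_zero_of_lt_one (by norm_num) (by norm_num), ?_⟩
      filter_upwards with n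
      exact (pow_pos (by norm_num : (0 : ℝ) < 1 / 2) n).ne'
    have h4 := h2.comp h3
    refine h4.congr fun n => ?_
    simp only [Function.comp_apply, zero_add, hg0, sub_zero, smul_eq_mul]
    rw [← inv_pow]
    norm_num
  have hlim2 : Tendsto (fun n : ℕ => (2 : ℝ) ^ n * g ((1 / 2) ^ n) +
      4 / 3 * (1 - (1 / 2) ^ n)) atTop (𝓝 (0 + 4 / 3 * (1 - 0))) := by
    refine hlim.add (Tendsto.const_mul _ (tendsto_const_nhds.sub ?_))
    exact tendsto_pow_atTop_nhds_zero_of_lt_one (by norm_num) (by norm_num)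
  have hfin : g 1 ≤ 4 / 3 := by
    have := ge_of_tendsto' hlim2 hiter
    linarith
  have h2 : (∫ x, Real.exp (ψ x) ∂μ) * (∫ x, Real.exp (-ψ x) ∂μ) = Real.exp (g 1) := by
    have h3 : g 1 = Real.log (∫ x, Real.exp (1 * ψ x) ∂μ) +
        Real.log (∫ x, Real.exp (-1 * ψ x) ∂μ) := rfl
    rw [h3, Real.exp_add, Real.exp_log (hpos 1), Real.exp_log (hpos (-1))]
    simp only [one_mul, neg_mul]
  rw [h2]
  exact Real.exp_le_exp.2 (by linarith)

end Pool.Agent.H19.KL
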